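import Mathlib

namespace Pool.Agent.Results.MP_a41668_al.Heisenberg

/-- quandle axioms -/
def IsQuandle {X : Type} (op : X → X → X) : Prop :=
  (∀ x, op x x = x) ∧ (∀ y, Function.Bijective fun x => op x y) ∧
    ∀ x y z, op (op x y) z = op (op x z) (op y z)

/-- the inner group acts transitively -/
def AlgConnected {X : Type} (op : X → X → X) : Prop :=
  ∀ x x' : X, ∃ g ∈ Subgroup.closure {e : Equiv.Perm X | ∃ y, ∀ u, e u = op u y}, g x = x'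

def H (u w : ℝ × ℝ × ℝ) : ℝ × ℝ × ℝ :=
  (w.1 - u.2.1 + w.2.1, u.1 - w.1 + u.2.1,
    u.2.2 + ((w.2.1 - u.2.1) * w.2.1 - (u.1 - w.1 + u.2.1 - w.2.1) * w.1)
      - (u.1 * w.2.1 - u.2.1 * w.1))

theorem bij (w : ℝ × ℝ × ℝ) : Function.Bijective fun u => H u w := by
  obtain ⟨a, b, c⟩ := w
  constructor
  · rintro ⟨x, y, z⟩ ⟨x', y', z'⟩ h
    simp only [H, Prod.mk.injEq] at h ⊢
    obtain ⟨h1, h2, h3⟩ := h
    obtain rfl : y = y' := by linarith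
    obtain rfl : x = x' := by linarith
    exact ⟨rfl, rfl, by linarith⟩
  · rintro ⟨x, y, z⟩
    refine ⟨(x + y - b, a + b - x, z - ((x - a) * b - (y - b) * a)
      + ((x + y - b) * b - (a + b - x) * a)), ?_⟩
    simp only [H, Prod.mk.injEq]
    refine ⟨?_, ?_, ?_⟩ <;> ring

theorem conn : AlgConnected H := by
  let R : ℝ × ℝ × ℝ → ℝ × ℝ × ℝ → Prop := fun x x' =>
    ∃ g ∈ Subgroup.closure {e : Equiv.Perm (ℝ × ℝ × ℝ) | ∃ y, ∀ u, e u = H u y}, g x = x'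
  have step : ∀ x y, R x (H x y) := fun x y =>
    ⟨Equiv.ofBijective _ (bij y), Subgroup.subset_closure ⟨y, fun _ => rfl⟩, rfl⟩
  have symm : ∀ {x y}, R x y → R y x := by
    rintro x _ ⟨g, hg, rfl⟩
    exact ⟨g⁻¹, inv_mem hg, by simp⟩
  have trans : ∀ {x y z}, R x y → R y z → R x z := by
    rintro x _ _ ⟨g, hg, rfl⟩ ⟨k, hk, rfl⟩
    exact ⟨k * g, mul_mem hk hg, rfl⟩
  have h1 : ∀ x, ∃ z, R x (0, 0, z) := by
    rintro ⟨x, y, z⟩
    refine ⟨(H (x, y, z) (x + y, -x, 0)).2.2, ?_⟩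
    convert step (x, y, z) (x + y, -x, 0) using 1
    simp [H]
  have h2 : ∀ z t : ℝ, R (0, 0, z) (0, 0, z + 2 * t ^ 2) := by
    intro z t
    convert trans (trans (step (0, 0, z) (0, t, 0)) (step _ (0, 0, 0))) (step _ (t, 0, 0)) using 1
    simp only [H, Prod.mk.injEq]
    refine ⟨?_, ?_, ?_⟩ <;> ring
  have h3 : ∀ z z' : ℝ, z ≤ z' → R (0, 0, z) (0, 0, z') := by
    intro z z' h
    convert h2 z (√((z' - z) / 2)) using 3
    rw [Real.sq_sqrt (by linarith)]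
    ring
  intro x x'
  obtain ⟨z, hz⟩ := h1 x
  obtain ⟨z', hz'⟩ := h1 x'
  rcases le_total z z' with h | h
  · exact trans hz (trans (h3 _ _ h) (symm hz'))
  · exact trans hz (trans (symm (h3 _ _ h)) (symm hz'))

theorem result : ∃ op : ℝ × ℝ × ℝ → ℝ × ℝ × ℝ → ℝ × ℝ × ℝ,
    ContDiff ℝ ⊤ (fun p : (ℝ × ℝ × ℝ) × ℝ × ℝ × ℝ => op p.1 p.2) ∧ IsQuandle op ∧
    ConnectedSpace (ℝ × ℝ × ℝ) ∧ AlgConnected op ∧
    ∀ (G : Type) [Group G] (f : ℝ × ℝ × ℝ → G), (∀ x y, f (op x y) = (f y)⁻¹ * f x * f y) →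
      ¬ Function.Injective f := by
  refine ⟨H, by unfold H; fun_prop, ⟨?_, bij, ?_⟩, inferInstance, conn, fun G _ f hf hi => ?_⟩
  · rintro ⟨x, y, z⟩
    simp only [H, Prod.mk.injEq]
    refine ⟨?_, ?_, ?_⟩ <;> ring
  · rintro ⟨x, y, z⟩ ⟨a, b, c⟩ ⟨p, q, r⟩
    simp only [H, Prod.mk.injEq]
    refine ⟨?_, ?_, ?_⟩ <;> ring
  · have h1 := hf (1, 0, 1) (0, 0, 0)
    have h2 := hf (0, 0, 0) (0, 1, 1)
    have h3 := hf (0, 1, 1) (1, 0, 1)
    norm_num [H] at h1 h2 h3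
    have : f (0, 0, 2) = f (0, 0, 0) := by
      have e1 : f (0, 0, 0) * f (0, 1, 1) = f (1, 0, 1) * f (0, 0, 0) := by rw [h1]; group
      have e2 : f (0, 1, 1) * f (1, 0, 1) = f (0, 0, 0) * f (0, 1, 1) := by rw [h2]; group
      rw [h3, mul_assoc, e2, e1, inv_mul_cancel_left]
    simpa using hi this

end Pool.Agent.Results.MP_a41668_al.Heisenberg
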